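import Pool.Agent.Lib.MP_b27257_nt.VaryPParts

/-!
# Every `S`-process stops in logarithmic time, for almost all numerators `p`
-/

set_option autoImplicit false

open Finset

namespace Pool.Agent.Results.MP_b27257_nt.AlmostAllP

open Pool.Agent.Lib.MP_b27257_nt.VaryP

/-- **Theorem.** Fix `q ≥ 2`. For all `P ≥ 1` and `X`, the number of `p ≤ P` coprime to `q` for
which the `S`-process of some `x ≤ X` coprime to `q`, for some proper subset `S` of the residues
modulo `q`, is still alive at all the times `1, ..., ⌊log_q P⌋`, is at most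
`q² X P^(log (q-1) / log q)`. -/
theorem result (q : ℕ) (hq : 2 ≤ q) (P X : ℕ) (hP : 1 ≤ P) :
    (Nat.card {p : ℕ | p ≤ P ∧ p.Coprime q ∧ ∃ x, 1 ≤ x ∧ x ≤ X ∧ x.Coprime q ∧
      ∃ S ⊂ range q, ∀ n, 1 ≤ n → n ≤ Nat.log q P → (T p q)^[n] x % q ∈ S} : ℝ) ≤
      (q : ℝ) ^ 2 * X * (P : ℝ) ^ (Real.log ((q : ℝ) - 1) / Real.log q) :=
  Pool.Agent.Lib.MP_b27257_nt.VaryPParts.part_one q hq P X hP

end Pool.Agent.Results.MP_b27257_nt.AlmostAllP
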