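import Pool.Agent.Lib.MP_b27257_nt.BT.B16

/-!
Survivors of the ceiling process beyond the entropy exponent: for all coprime `p > q > 1` and every nonempty
proper set `S` of residues modulo `q` there are `θ < log |S| / log q`, `K` and `C` such that for all `N ≥ 2` at
most `C N^θ` integers `1 ≤ x ≤ N` satisfy `T^n(x) % q ∈ S` for all `n ≤ K log N`, where `T(x) = ⌈p x / q⌉`.
-/

namespace Pool.Agent.Results.MP_b27257_nt.BeyondEntropy

/-- For coprime `p > q > 1` and `S` a nonempty proper subset of `{0, .., q-1}` there are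
`θ < log |S| / log q`, `K` and `C` such that for all `N ≥ 2` the number of `1 ≤ x ≤ N` with
`T^n(x) % q ∈ S` for all `n ≤ K log N`, `T(x) = ⌈p x / q⌉`, is at most `C N^θ`. -/
theorem result (p q : ℕ) (hpq : Nat.Coprime p q) (hqp : q < p) (hq : 1 < q) (S : Finset ℕ)
    (hne : S.Nonempty) (hS : S ⊂ Finset.range q) :
    ∃ θ K C : ℝ, θ < Real.log S.card / Real.log q ∧ ∀ N : ℕ, 2 ≤ N →
      (Set.ncard {x : ℕ | 1 ≤ x ∧ x ≤ N ∧ ∀ n : ℕ, (n : ℝ) ≤ K * Real.log N →
        ((fun x : ℕ => (p * x + q - 1) / q)^[n] x) % q ∈ S} : ℝ) ≤ C * (N : ℝ) ^ θ :=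
  Pool.Agent.Lib.MP_b27257_nt.BT.beyond_trivial hpq hqp hq hne hS

end Pool.Agent.Results.MP_b27257_nt.BeyondEntropy
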