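import Pool.Agent.Lib.MP_b27257_nt.VaryPParts

/-!
# Equidistribution modulo `q ^ l` over logarithmic times, for almost all numerators `p`
-/

set_option autoImplicit false

open Finset

namespace Pool.Agent.Results.MP_b27257_nt.EquidistAlmostAllP

open Pool.Agent.Lib.MP_b27257_nt.VaryP

/-- **Theorem.** Fix `q ≥ 2`, `l ≥ 1` and `0 < ε ≤ 1`. For all but
`4 l q^(2l) X P^(1 - ε² / (2 l log q))` of the `p ≤ P` coprime to `q`, the points
`T x, ..., T^L x`, `L = ⌊log_q P⌋`, lie in every class modulo `q^l` with frequency within `ε` of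
`q^(-l)`, for all `x ≤ X` coprime to `q`. -/
theorem result (q : ℕ) (hq : 2 ≤ q) (l : ℕ) (hl : 1 ≤ l) (ε : ℝ) (hε : 0 < ε) (hε1 : ε ≤ 1)
    (P X : ℕ) (hP : 1 ≤ P) :
    (Nat.card {p : ℕ | p ≤ P ∧ p.Coprime q ∧ ∃ x, 1 ≤ x ∧ x ≤ X ∧ x.Coprime q ∧ ∃ r, r < q ^ l ∧
      ε * Nat.log q P < |((((Icc 1 (Nat.log q P)).filter
        (fun n => (T p q)^[n] x % q ^ l = r)).card : ℝ)) - (Nat.log q P : ℝ) / (q : ℝ) ^ l|} : ℝ) ≤
      4 * l * (q : ℝ) ^ (2 * l) * X * (P : ℝ) ^ (1 - ε ^ 2 / (2 * l * Real.log q)) :=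
  Pool.Agent.Lib.MP_b27257_nt.VaryPParts.part_two q hq l hl ε hε hε1 P X hP

end Pool.Agent.Results.MP_b27257_nt.EquidistAlmostAllP
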