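import Pool.Agent.Lib.MP_b27257_nt.Ceil

/-!
Words generated by `p/q`-iterations of integers have superlinear complexity.
-/

namespace Pool.Agent.Results.MP_b27257_nt.SuperlinearComplexity

open Filter

/-- Let `p > q > 1` be coprime, let `w` be a word over a finite set of integers, and let `y` be a
sequence of integers with infinitely many values such that `q y(n+1) = p y(n) + w(n)` for all `n`.
Then `w` has superlinear complexity: for every `C` and all large `n`, more than `C n` different
blocks of length `n` occur in `w`.

For a positive integer `x₀` and `y(n) = T^n(x₀)`, where `T(x) = ⌈p x / q⌉`, the word `w` is the minimal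
word generated by `x₀` in base `p/q`. -/
theorem result (p q : ℕ) (hcop : Nat.Coprime p q) (hqp : q < p) (hq : 1 < q)
    (w y : ℕ → ℤ) (hw : (Set.range w).Finite) (hy : ∀ n, (q : ℤ) * y (n + 1) = p * y n + w n)
    (hinf : (Set.range y).Infinite) (C : ℕ) :
    ∀ᶠ n : ℕ in atTop, C * n < (Set.range fun i : ℕ => fun k : Fin n => w (i + k)).ncard :=
  Pool.Agent.Lib.MP_b27257_nt.word_superlinear hcop hqp hq w y hw hy hinf C

end Pool.Agent.Results.MP_b27257_nt.SuperlinearComplexity
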